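import Pool.Agent.KUR.Final

/-!
# It is consistent with CH that there is a Kurepa tree, but no strong Kurepa tree

There is a countable transitive model `M` of ZFC in which the continuum hypothesis holds, there is a
Kurepa tree, and no Kurepa tree is strong: for no Kurepa tree `T` is there a continuous surjection
of the space of its cofinal branches onto `{0, 1}^ω₁` (both with the cone topologies).

The notions of `M` are defined in `Pool/Agent/KUR/Defs.lean` (Kurepa trees, strong Kurepa trees,
`Q1`) and `Pool/Agent/RFN/TDefs.lean` (`Choice`, topologies, continuity) for an arbitrary model of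
set theory.
-/

namespace Pool.Agent.Results.MP_0f79e1_lc.ConsistentKurepaNoStrong

open Pool.Agent.RFN Pool.Agent.RFN.GX.KUR Pool.Agent.H78.ZF

theorem result : ∃ (M : Set ZFSet.{0}) (h : IsZFModel fun x y : M => x.1 ∈ y.1),
    M.Countable ∧ (∀ x ∈ M, ∀ y ∈ x, y ∈ M) ∧
      letI : ZFM M := ⟨fun x y => x.1 ∈ y.1, h⟩
      Choice M ∧ Q1 M :=
  exists_model

end Pool.Agent.Results.MP_0f79e1_lc.ConsistentKurepaNoStrong
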