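import Pool.Agent.H68.KT.Fwd
import Pool.Agent.H68.KT.Bwd

/-!
# A strong Kurepa tree exists if and only if `◇⁺` holds

The definitions (`W1`, `IsTree`, `height`, `IsOmegaOneTree`, `IsCofinalBranch`, `Branch`,
`IsKurepa`, the two cone topologies, `IsStrongKurepa`, `IsClub`, `DiamondPlus`) are in
`Pool/Agent/H68/KT/Defs.lean`.

* If `F : [T] → {}^{ω₁}2` is a continuous surjection, every node `t` of level `δ` computes the
  values of `F` decided by its predecessors, and the set of those `i < δ` such that all the values
  below `i` are decided by predecessors of level `< i`. These countably many subsets of `δ` form a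
  `◇⁺`-sequence (file `Fwd`).
* Conversely, let `S` be a `◇⁺`-sequence. The cofinal branches of the tree are the pairs `(X, C)`,
  `C` a club of `δ` with `X ∩ δ, C ∩ δ ∈ S δ`. At level `α` the tree knows `C ∩ (α + 1)`, knows `X`
  below the last element of `C` which is `≤ α`, and knows the restriction to `α + 1` of
  `ρ(·, γ)`, where `γ` is the next element of `C` after `α` and `ρ` is a coherent finite-to-one
  function; the latter excludes branches on which the next element of `C` never comes
  (files `Coh`, `Sys`, `Bwd`).
-/

namespace Pool.Agent.Results.MP_0f79e1_lc.StrongKurepaIffDiamondPlus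

/-- There is a strong Kurepa tree if and only if Jensen's principle `◇⁺` holds. -/
theorem result :
    (∃ (T : Type) (_ : PartialOrder T), H68.KT.IsStrongKurepa T) ↔ H68.KT.DiamondPlus := by
  constructor
  · rintro ⟨T, hT, ⟨hK, -⟩, h, F, hF, hs⟩
    exact H68.KT.diamondPlus_of_strong hK F hF hs
  · exact H68.KT.strong_of_diamondPlus

end Pool.Agent.Results.MP_0f79e1_lc.StrongKurepaIffDiamondPlus
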